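import Mathlib
import Pool.Agent.U839.Eh.Fin2

set_option autoImplicit false

/-!
# Primes in residue classes to large moduli, in random models of the primes

Montgomery's conjecture is the bound `ψ(x; q, a) - x/φ(q) = O(x^(1/2+ε) q^(-1/2))` for all `q ≤ x`; it implies the
asymptotic formula for all individual moduli `q ≤ x^(1-ε)`. We study these assertions in sieved
random models. Let `T` be nondecreasing, with `T(n) ≤ n^(ε / log log n)` for large `n`, for every `ε > 0`. Only the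
integers `n` without prime factors `p ≤ T(n)` can be chosen, independently, with probability `∏_{p ≤ T(n)} (1 - 1/p)⁻¹ /
log n`. (Cramér's model is `T = 0`, Granville's has `T(n) = log n`.)

**Theorem.** (1) If `T` exceeds every power of `log n`, then almost surely, for all `ε > 0` and `A` and large `x`,
`|π(x; d, l) - li(x)/φ(d)| ≤ x / (φ(d) log^A x)` for ALL `d ≤ x^(1-ε)` and all classes `l` prime to `d`; and every
exponent `α < 1` is admissible in the sense of Elliott and Halberstam.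

(2) If `T` does not exceed every power of `log n`, then almost surely even the theorem of
Siegel and Walfisz fails: for some `B` and infinitely many `N` there is a prime `d ≤ log^B N` with
`|π(N; d, 1) - li(N)/φ(d)| ≥ N / log^B N`. So the bound of Montgomery fails, with any exponent smaller than `1` instead of
`1/2 + ε`, and no exponent `α > 0` is admissible.

So in a random model of this kind the asymptotic formula for all moduli `d ≤ x^(1-ε)` holds exactly if one sieves by all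
primes beyond every power of `log n`; in the models of Cramér and Granville it does not hold.

Proof. The number of chosen elements of a class modulo `d` is concentrated (Chernoff) as soon as `d ≤ x^(1-ε)`. Its mean
is computed by the fundamental lemma in residue classes, with a level which grows like `log log x`, on the
intervals on which `T` is constant, and partial summation; it is `∑_n φ_{T(n)}(d)⁻¹ / log n`, where
`φ_t(d) = d ∏_{p ∣ d, p ≤ t} (1 - 1/p)`. The factors of `d` above `T` contribute a relative error `O(log d / T)`. If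
`T(N) < log^B N`, a prime `d` just above this bound has `φ_{T(n)}(d) = d` for all `n ≤ N`, instead of `d - 1`.
-/

open MeasureTheory ProbabilityTheory Filter Topology

namespace Pool.Agent.Results.MP_848d44_nt.AsymptoticsInSievedModels

open Classical in
/-- `∏_{p ≤ T(n)} (1 - 1/p)⁻¹` if `n` has no prime factor `p ≤ T(n)`, and `0` otherwise. -/
noncomputable def weight (T : ℕ → ℕ) (n : ℕ) : ℝ :=
  if ∀ p, p.Prime → p ≤ T n → ¬ p ∣ n then
    ∏ p ∈ (Finset.Icc 1 (T n)).filter Nat.Prime, (1 - 1 / (p : ℝ))⁻¹ else 0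

/-- The random model: `E n` is the event that `n` is chosen; these events are independent and have
probability `weight T n / log n` (if this is at most `1`, which is the case for all large `n` here). -/
structure Model {Ω : Type*} [MeasurableSpace Ω] (μ : Measure Ω) (T : ℕ → ℕ) (E : ℕ → Set Ω) : Prop where
  meas : ∀ n, MeasurableSet (E n)
  indep : iIndepSet E μ
  law : ∀ n : ℕ, μ.real (E n) = min 1 (weight T n / Real.log n)

open Classical in
/-- The number `π(x; d, l)` of the elements `n ≤ x` of `Q` with `n ≡ l` modulo `d`. -/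
noncomputable def count (Q : Set ℕ) (x : ℝ) (d l : ℕ) : ℕ :=
  ((Finset.Icc 1 ⌊x⌋₊).filter (fun n => n ∈ Q ∧ n % d = l % d)).card

/-- The logarithmic integral from `2` to `x`. -/
noncomputable def li (x : ℝ) : ℝ := ∫ t in (2 : ℝ)..x, 1 / Real.log t

/-- `π(x; d, l) - li(x)/φ(d)`. -/
noncomputable def err (Q : Set ℕ) (x : ℝ) (d l : ℕ) : ℝ := (count Q x d l : ℝ) - li x / d.totient

/-- The exponent `α` is admissible: for every `U > 0` there is `C` such that for all `x ≥ 3` the sum of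
`max_l |err Q x d l|` over the squarefree `d ≤ x^α` is at most `C x / log^U x`. (The maximum is expressed by
arbitrary choices `l d` of residue classes prime to `d`.) -/
def Admissible (Q : Set ℕ) (α : ℝ) : Prop := ∀ U : ℝ, 0 < U → ∃ C : ℝ, ∀ x : ℝ, 3 ≤ x → ∀ l : ℕ → ℕ,
  (∀ d, (l d).Coprime d) →
    ∑ d ∈ (Finset.Icc 1 ⌊x ^ α⌋₊).filter Squarefree, |err Q x d (l d)| ≤ C * x / (Real.log x) ^ U

/-- The asymptotic formula for all moduli `d ≤ x^(1-ε)` individually. -/
def AllModuli (Q : Set ℕ) : Prop := ∀ ε : ℝ, 0 < ε → ∀ A : ℕ, ∀ᶠ x : ℝ in atTop, ∀ d l : ℕ, 1 ≤ d →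
  (d : ℝ) ≤ x ^ (1 - ε) → l.Coprime d → |err Q x d l| ≤ x / (d.totient * (Real.log x) ^ A)

/-- The theorem of Siegel and Walfisz fails for prime moduli. -/
def NotSiegelWalfisz (Q : Set ℕ) : Prop := ∃ B : ℕ, ∃ᶠ N : ℕ in atTop, ∃ d : ℕ, d.Prime ∧
  (d : ℝ) ≤ (Real.log N) ^ B ∧ (N : ℝ) / (Real.log N) ^ B ≤ |err Q N d 1|

/-- `T(n)` exceeds every power of `log n`. -/
def ExceedsPowers (T : ℕ → ℕ) : Prop := ∀ B : ℕ, ∀ᶠ n : ℕ in atTop, (Real.log n) ^ B ≤ T n

/-- A power saving in all residue classes, `|π(x; d, l) - li(x)/φ(d)| ≤ C x^θ d^(-1/2)` for all `d ≤ x`; Montgomery's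
conjecture is this bound for all `θ > 1/2`. -/
def PowerSaving (Q : Set ℕ) (θ : ℝ) : Prop := ∃ C : ℝ, ∀ x : ℝ, 3 ≤ x → ∀ d l : ℕ, 1 ≤ d → (d : ℝ) ≤ x →
  l.Coprime d → |err Q x d l| ≤ C * x ^ θ / (d : ℝ) ^ (1 / 2 : ℝ)

theorem not_powerSaving (Q : Set ℕ) (h : NotSiegelWalfisz Q) (θ : ℝ) (hθ : θ < 1) : ¬ PowerSaving Q θ := by
  rintro ⟨C, hC⟩
  obtain ⟨B, hB⟩ := h
  have hC' : ∀ x : ℝ, 3 ≤ x → ∀ d l : ℕ, 1 ≤ d → (d : ℝ) ≤ x → l.Coprime d → |err Q x d l| ≤ |C| * x ^ θ := by
    intro x hx d l h1 h2 h3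
    have hd1 : (1 : ℝ) ≤ (d : ℝ) ^ (1 / 2 : ℝ) := Real.one_le_rpow (by exact_mod_cast h1) (by norm_num)
    have hx0 : 0 < x ^ θ := Real.rpow_pos_of_pos (by linarith) _
    refine (hC x hx d l h1 h2 h3).trans ?_
    rw [div_le_iff₀ (by linarith)]
    calc C * x ^ θ ≤ |C| * x ^ θ := mul_le_mul_of_nonneg_right (le_abs_self C) hx0.le
      _ = |C| * x ^ θ * 1 := (mul_one _).symm
      _ ≤ |C| * x ^ θ * (d : ℝ) ^ (1 / 2 : ℝ) := mul_le_mul_of_nonneg_left hd1 (by positivity)
  have e1 := (isLittleO_log_rpow_rpow_atTop (B : ℝ) (show (0 : ℝ) < 1 - θ by linarith)).bound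
    (show (0 : ℝ) < 1 / (2 * (|C| + 1)) by positivity)
  have e2 := (isLittleO_log_rpow_rpow_atTop (B : ℝ) one_pos).bound one_pos
  have htl : Tendsto (fun n : ℕ => Real.log (n : ℝ)) atTop atTop :=
    Real.tendsto_log_atTop.comp tendsto_natCast_atTop_atTop
  obtain ⟨N, ⟨d, h1, h2, h3⟩, h4, h5, h6, h7⟩ := (hB.and_eventually
    ((tendsto_natCast_atTop_atTop.eventually e1).and ((tendsto_natCast_atTop_atTop.eventually e2).and
      ((eventually_ge_atTop 3).and (htl.eventually_ge_atTop 1))))).exists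
  have hN3 : (3 : ℝ) ≤ N := by exact_mod_cast h6
  have hN0 : (0 : ℝ) < N := by linarith
  rw [Real.norm_of_nonneg (by positivity), Real.norm_of_nonneg (by positivity), Real.rpow_natCast] at h4 h5
  rw [one_mul, Real.rpow_one] at h5
  have h8 := hC' N hN3 d 1 h1.one_lt.le (h2.trans h5) (Nat.coprime_one_left d)
  have h9 := h3.trans h8
  have hL0 : 0 < (Real.log N) ^ B := by positivity
  rw [div_le_iff₀ hL0] at h9
  have h10 : |C| * (N : ℝ) ^ θ * (Real.log N) ^ B ≤ |C| * (N : ℝ) ^ θ * (1 / (2 * (|C| + 1)) * (N : ℝ) ^ (1 - θ)) :=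
    mul_le_mul_of_nonneg_left h4 (by positivity)
  have h11 : (N : ℝ) ^ θ * (N : ℝ) ^ (1 - θ) = N := by
    rw [← Real.rpow_add hN0]
    have : θ + (1 - θ) = 1 := by ring
    rw [this, Real.rpow_one]
  have h12 : |C| * (N : ℝ) ^ θ * (1 / (2 * (|C| + 1)) * (N : ℝ) ^ (1 - θ)) = |C| / (2 * (|C| + 1)) * N := by
    have h14 : |C| * (N : ℝ) ^ θ * (1 / (2 * (|C| + 1)) * (N : ℝ) ^ (1 - θ)) =
        |C| / (2 * (|C| + 1)) * ((N : ℝ) ^ θ * (N : ℝ) ^ (1 - θ)) := by ring
    rw [h14, h11]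
  have h13 : |C| / (2 * (|C| + 1)) ≤ 1 / 2 := by
    have hC0 : 0 ≤ |C| := abs_nonneg C
    rw [div_le_iff₀ (by positivity)]
    linarith
  nlinarith

/-- (1) and (2). -/
theorem result {Ω : Type*} [MeasurableSpace Ω] {μ : Measure Ω} [IsProbabilityMeasure μ] (T : ℕ → ℕ)
    (hT : Monotone T)
    (hTup : ∀ ε : ℝ, 0 < ε → ∀ᶠ n : ℕ in atTop, (T n : ℝ) ≤ (n : ℝ) ^ (ε / Real.log (Real.log n)))
    (E : ℕ → Set Ω) (hE : Model μ T E) :
    (ExceedsPowers T → ∀ᵐ ω ∂μ,
      AllModuli {n | ω ∈ E n} ∧ ∀ α : ℝ, 0 < α → α < 1 → Admissible {n | ω ∈ E n} α) ∧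
    (¬ ExceedsPowers T → ∀ᵐ ω ∂μ,
      NotSiegelWalfisz {n | ω ∈ E n} ∧ (∀ θ : ℝ, θ < 1 → ¬ PowerSaving {n | ω ∈ E n} θ) ∧
        ∀ α : ℝ, 0 < α → ¬ Admissible {n | ω ∈ E n} α) := by
  have h : Pool.Agent.U839.Sv.Sieved μ E T := ⟨hE.meas, hE.indep, hE.law⟩
  obtain ⟨h1, h2⟩ := Pool.Agent.U839.Eh.main hT hTup h
  refine ⟨fun hD => ?_, fun hD => ?_⟩
  · filter_upwards [h1 hD] with ω hω
    exact ⟨hω.2, hω.1⟩
  · filter_upwards [h2 hD] with ω hω
    exact ⟨hω.2, fun θ hθ => not_powerSaving _ hω.2 θ hθ, hω.1⟩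

end Pool.Agent.Results.MP_848d44_nt.AsymptoticsInSievedModels
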