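import Pool.Agent.U108.ML.Dual

set_option autoImplicit false

/-! # Primes in progressions to all moduli `≤ P / (log P) ^ K`, on average over residues near multilinear values of thin families

Absolute values over all moduli, weights given by powers of the divisor function, arbitrary heights inside; the residue is
averaged, with arbitrary coefficients, over arbitrary integers near the multilinear values
`c u_1(j_1) ⋯ u_s(j_s) + ∑ R_l(j)` (`R_l` is ANY integral function which does not depend on the `l`-th coordinate) of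
`s ≥ 2` thin families `u_l`, or near determinants with the diagonal entries `u_l(j_l)` and with arbitrary fixed entries off the
diagonal. A family is thin if its additive energy of some order is minimal up to powers of the logarithm; for instance the
integers of an interval, the values of an integer polynomial, the integers with two given digits, the primes.

Proof: the energy of the values is minimal again (`Pool.Agent.U108.ML.V.energy_val`); the library theorem of helper856 on the
discrepancies of primes for families of residues of small energy, in its dual form (`Pool.Agent.U856.EH.dual`), is then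
applied for every distance from the values (`Pool.Agent.U108.ML.dual_near`).

From Mathlib: `ArithmeticFunction.vonMangoldt`: the function `Λ`; `Nat.totient`: Euler's function. -/

namespace Pool.Agent.Results.MP_848d44_nt.MultilinearResidues

open Finset

/-- `ψ(x; q, a)`: the sum of `Λ(n)` over the `n ≤ x` with `n ≡ a (mod q)`. -/
noncomputable def psi (x q : ℕ) (a : ℤ) : ℝ :=
  ∑ n ∈ (Icc 1 x).filter (fun n : ℕ => (n : ℤ) ≡ a [ZMOD q]), ArithmeticFunction.vonMangoldt n

/-- `τ(q)`: the number of the divisors of `q`. -/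
noncomputable def τ (q : ℕ) : ℝ := q.divisors.card

/-- The sum of `w(j) (ψ(x; q, a(j)) - x / φ(q))` over the indices `j` for which `a(j)` is coprime to `q`. -/
noncomputable def total {ι : Type} [Fintype ι] (w : ι → ℝ) (a : ι → ℤ) (x q : ℕ) : ℝ :=
  ∑ j ∈ univ.filter (fun j => Int.gcd (a j) q = 1), w j * (psi x q (a j) - (x : ℝ) / Nat.totient q)

/-- The additive energy of order `h` of a finite family `u`: the number of the solutions of
`u(x_1) + ⋯ + u(x_h) = u(y_1) + ⋯ + u(y_h)`. -/
noncomputable def energy (h : ℕ) {ι : Type} [Fintype ι] (u : ι → ℤ) : ℕ :=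
  Nat.card {q : (Fin h → ι) × (Fin h → ι) // ∑ j, u (q.1 j) = ∑ j, u (q.2 j)}

/-- `u` is a finite family of integers in `[-N, N]`, and its energy of order `h` is at most `(log P) ^ C` times
`(number of the elements) ^ (2 h) / N`. -/
def Thin (h C P N : ℕ) {ι : Type} [Fintype ι] (u : ι → ℤ) : Prop :=
  (∀ i, |u i| ≤ N) ∧ (energy h u : ℝ) * N ≤ Real.log P ^ C * (Fintype.card ι : ℝ) ^ (2 * h)

/-- `v(j) = c ∏ u_l(j_l) + ∑ R_l(j)` with an integer `c`, `0 < |c| ≤ (log P) ^ B`, and ARBITRARY functions `R_l` with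
integral values such that `R_l` does not depend on the `l`-th coordinate; or `v(j)` is the determinant of the matrix with
the diagonal entries `u_l(j_l)` and with fixed integral entries off the diagonal. -/
def Multilinear (B P : ℕ) {s : ℕ} {I : Fin s → Type} (u : ∀ l, I l → ℤ) (v : (∀ l, I l) → ℤ) : Prop :=
  (∃ (c : ℤ) (R : Fin s → (∀ l, I l) → ℤ), c ≠ 0 ∧ |(c : ℝ)| ≤ Real.log P ^ B ∧
    (∀ l j x, R l (Function.update j l x) = R l j) ∧ ∀ j, v j = c * ∏ l, u l (j l) + ∑ l, R l j) ∨
  (∃ M : Matrix (Fin s) (Fin s) ℤ, ∀ j, v j = (Matrix.of fun a b => if a = b then u a (j a) else M a b).det)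

/-- Let `h ≥ 1`, `s ≥ 2`, `m`, `B`, `D`, `T`, `U`, `W` be fixed. There is an exponent `K` with the following property.
Let `P` be large, `P = N_1 ⋯ N_s` with `P ≤ N_l ^ m` for all `l`, let `u_1, …, u_s` be families of integers with
`Thin h D P (N_l) u_l`, and let `v` be a multilinear function of them with `|v(j)| ≤ B P` for all indices `j`. Let `w(j)` be
arbitrary real coefficients with `|w(j)| ≤ (log P) ^ T`, let `a(j)` be arbitrary integers with `|a(j) - v(j)| ≤ (log P) ^ W`
if `w(j) ≠ 0`, and for every modulus `q` let `x(q) ≤ B P` be an arbitrary height. Then for all `Q ≤ P / (log P) ^ K`: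

(1) the sum over ALL moduli `q ≤ Q` of `τ(q) ^ T` times the ABSOLUTE VALUE of the sum of
`w(j) (ψ(x(q); q, a(j)) - x(q) / φ(q))` over the `j` for which `a(j)` is coprime to `q` is at most `J P / (log P) ^ U`, where
`J` is the number of all indices `j`;

(2) for every `R` with `2 R ≤ Q` this sum over `j` is at most `J P / (q (log P) ^ U)` in absolute value for all the moduli
`R < q ≤ 2 R` with at most `R / (log P) ^ U` exceptions. -/
theorem result (h s m B D T U W : ℕ) (hh : 1 ≤ h) (hs : 2 ≤ s) : ∃ K P₀ : ℕ, ∀ (P : ℕ) (N : Fin s → ℕ), P₀ ≤ P →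
    ∏ l, N l = P → (∀ l, P ≤ N l ^ m) →
    ∀ (I : Fin s → Type) [∀ l, Fintype (I l)] (u : ∀ l, I l → ℤ), (∀ l, Thin h D P (N l) (u l)) →
    ∀ v : (∀ l, I l) → ℤ, Multilinear B P u v → (∀ j, |v j| ≤ B * P) →
    ∀ (w : (∀ l, I l) → ℝ) (a : (∀ l, I l) → ℤ), (∀ j, |w j| ≤ Real.log P ^ T) →
    (∀ j, w j ≠ 0 → |((a j - v j : ℤ) : ℝ)| ≤ Real.log P ^ W) →
    ∀ x : ℕ → ℕ, (∀ q, x q ≤ B * P) → ∀ Q : ℕ, (Q : ℝ) ≤ P / Real.log P ^ K →
    ∑ q ∈ Icc 1 Q, τ q ^ T * |total w a (x q) q| ≤ Fintype.card (∀ l, I l) * (P / Real.log P ^ U) ∧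
    ∀ R : ℕ, 2 * R ≤ Q → (((Ioc R (2 * R)).filter (fun q : ℕ =>
      (Fintype.card (∀ l, I l) : ℝ) * (P / (q * Real.log P ^ U)) < |total w a (x q) q|)).card : ℝ) ≤ R / Real.log P ^ U := by
  classical
  obtain ⟨h', C', P₁, hh', -, hen⟩ := Pool.Agent.U108.ML.V.energy_val h s m B D hh hs
  obtain ⟨K, N₁, h1⟩ := Pool.Agent.U108.ML.dual_near Pool.Agent.U856.EH.DS Pool.Agent.U856.EH.allS h' B C' T (2 * U + 1) W
  have htend : Filter.Tendsto (fun n : ℕ => Real.log (n : ℝ)) Filter.atTop Filter.atTop :=
    Real.tendsto_log_atTop.comp tendsto_natCast_atTop_atTop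
  obtain ⟨P₂, hP₂⟩ := Filter.eventually_atTop.1 (htend.eventually_ge_atTop 2)
  refine ⟨K, P₁ + N₁ + P₂ + 1, fun P N hP hNP hNm I _ u hu v hv hvb w a hw ha x hx Q hQ => ?_⟩
  have hl := hP₂ P (by omega)
  have hP0 : 0 < P := by omega
  have hPr : (0 : ℝ) < P := by exact_mod_cast hP0
  have h5 := hen P N (by omega) hNP hNm I u (fun l => ⟨(hu l).1, (hu l).2⟩) v hv
  have h6 := h1 P (by omega) (∀ l, I l) v hvb h5 w a hw ha x hx Q hQ
  have h7 : ∑ q ∈ Icc 1 Q, (q.divisors.card : ℝ) ^ T * |total w a (x q) q| ≤
      Fintype.card (∀ l, I l) * (P / Real.log P ^ (2 * U + 1)) := h6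
  refine ⟨?_, fun R hR => ?_⟩
  · refine le_trans h7 ?_
    apply mul_le_mul_of_nonneg_left _ (Nat.cast_nonneg _)
    apply div_le_div_of_nonneg_left hPr.le (by positivity)
    exact pow_le_pow_right₀ (by linarith) (by omega)
  · rcases Nat.eq_zero_or_pos (Fintype.card (∀ l, I l)) with h0 | h0
    · have hemp : IsEmpty (∀ l, I l) := Fintype.card_eq_zero_iff.1 h0
      have e : ∀ q : ℕ, total w a (x q) q = 0 := by
        intro q
        unfold total
        rw [univ_eq_empty, filter_empty, sum_empty]
      have e2 : (Ioc R (2 * R)).filter (fun q : ℕ =>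
          (Fintype.card (∀ l, I l) : ℝ) * (P / (q * Real.log P ^ U)) < |total w a (x q) q|) = ∅ := by
        rw [filter_eq_empty_iff]
        intro q _
        rw [h0, e q]
        simp
      rw [e2, card_empty, Nat.cast_zero]
      positivity
    · exact Pool.Agent.U108.ML.few_moduli (fun q => total w a (x q) q) _ P T U Q _ hl hP0
        (by exact_mod_cast h0) h7 R hR

end Pool.Agent.Results.MP_848d44_nt.MultilinearResidues
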