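import Mathlib
import Pool.Agent.U365.LM.K

/-!
# Power savings for individual classes, for nearly all multiples of individual moduli

For every *single* `q ≤ x^κ`, `κ < 1/3`, which is not a multiple of one of a few exceptional
conductors, and for every residue class `l` prime to `q`: all but `Z x^(-δ)` of the `t ≤ Z` (products
of primes in `(x^ε, x^η]` with `q t ≤ x^θ`, `θ < 43/84`) satisfy
`|ψ(y; q t, l) - ψ(y)/φ(q t)| ≤ x^(1-δ)/(q t)` for all real `y ≤ x`.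

The proof: the starting files `Pool.Agent.R503.N` compare the primes in the class `l` modulo `q t` with
the primes in the class `l` modulo `q`, with a power saving for each single `q`, on average over `t`;
the files `Pool.Agent.U365.LM` show, with the large sieve on short blocks of conductors and many
heights, that all `q ≤ x^(1/3)` without an exceptional conductor have equidistributed primes.
-/

set_option autoImplicit false

namespace Pool.Agent.Results.MP_848d44_nt.MultiplesOfIndividualModuli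

open Finset

/-- `ψ(y, q, a)` -/
noncomputable def psi (y : ℝ) (q : ℕ) (a : ℤ) : ℝ :=
  ∑ n ∈ (Icc 1 ⌊y⌋₊).filter (fun n : ℕ => (n : ℤ) ≡ a [ZMOD q]), ArithmeticFunction.vonMangoldt n

/-- `ψ(y)` -/
noncomputable def total (y : ℝ) : ℝ := ∑ n ∈ Icc 1 ⌊y⌋₊, ArithmeticFunction.vonMangoldt n

/-- for all real `1 ≤ y ≤ x` the errors `ψ(y, m, a) - ψ(y)/φ(m)` and `ψ(y, m, a) - y/φ(m)` are at most
`E₁/m` and `E₂/m` -/
def Regular (x : ℕ) (E₁ E₂ : ℝ) (m : ℕ) (a : ℤ) : Prop :=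
  ∀ y : ℝ, 1 ≤ y → y ≤ x → |psi y m a - total y / (Nat.totient m : ℝ)| ≤ E₁ / m ∧
    |psi y m a - y / (Nat.totient m : ℝ)| ≤ E₂ / m

open Classical in
/-- the positive integers `t` with `q t ≤ x^θ`, `q t` squarefree, `(l, t) = 1`, all of whose prime
factors lie in `(x^ε, x^η]` -/
noncomputable def right (x : ℕ) (θ ε η : ℝ) (q : ℕ) (l : ℤ) : Finset ℕ :=
  (Icc 1 x).filter (fun t : ℕ => ((q * t : ℕ) : ℝ) ≤ (x : ℝ) ^ θ ∧ Squarefree (q * t) ∧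
    Int.gcd l t = 1 ∧ ∀ p : ℕ, p.Prime → p ∣ t → (x : ℝ) ^ ε < p ∧ (p : ℝ) ≤ (x : ℝ) ^ η)

/-- a finite set `P` of integers `f ≥ 2` with at most `K (1 + z x^(-1/20))` elements up to `z`, for all
`z ≥ 1` -/
def Few (x : ℕ) (K : ℝ) (P : Finset ℕ) : Prop :=
  (∀ f ∈ P, 2 ≤ f) ∧
  ∀ z : ℕ, 1 ≤ z → ((P.filter (fun f => f ≤ z)).card : ℝ) ≤ K * (1 + z * (x : ℝ) ^ (-(1 / 20) : ℝ))

theorem psi_eq (y : ℝ) (q : ℕ) (a : ℤ) : psi y q a = Pool.Agent.U365.LM.ps ⌊y⌋₊ q a := by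
  unfold psi Pool.Agent.U365.LM.ps Pool.Agent.U365.LM.F
  rw [sum_filter]
  refine sum_congr rfl fun n _ => ?_
  unfold Pool.Agent.Y826.Z.ind
  have h : ((n : ℤ) ≡ a [ZMOD q]) ↔ (q : ℤ) ∣ (n : ℤ) - a := by
    rw [Int.modEq_iff_dvd, dvd_sub_comm]
  simp only [h]
  split_ifs <;> simp

theorem total_eq (y : ℝ) : total y = H343E.psi1 (⌊y⌋₊ : ℝ) := by
  unfold total H343E.psi1
  rw [Nat.floor_natCast]

theorem reg_iff (x : ℕ) (E₁ E₂ : ℝ) (m : ℕ) (a : ℤ) : Regular x E₁ E₂ m a ↔ Pool.Agent.U365.LM.Reg x E₁ E₂ m a := by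
  unfold Regular Pool.Agent.U365.LM.Reg
  simp only [psi_eq, total_eq]

theorem mo {x q : ℕ} {θ ε η : ℝ} {l : ℤ} : ∀ t ∈ right x θ ε η q l, Pool.Agent.R503.N.Mo x q l θ ε η t := by
  intro t ht
  simp only [right, mem_filter] at ht
  obtain ⟨_, h2, h3, h4, h5⟩ := ht
  refine ⟨h3, Int.isCoprime_iff_gcd_eq_one.2 h4, h5, ?_⟩
  push_cast at h2
  exact h2

theorem right_mono {x q : ℕ} {θ θ' ε η : ℝ} {l : ℤ} (hx : 1 ≤ x) (h : θ ≤ θ') :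
    right x θ ε η q l ⊆ right x θ' ε η q l := by
  intro t ht
  have hx1 : (1 : ℝ) ≤ x := by exact_mod_cast hx
  simp only [right, mem_filter] at ht ⊢
  exact ⟨ht.1, ht.2.1.trans (Real.rpow_le_rpow_of_exponent_le hx1 h), ht.2.2⟩

open Classical in
/-- **Individual classes, nearly all multiples of individual moduli.** -/
theorem result : ∀ θ κ : ℝ, θ < 43 / 84 → κ < 1 / 3 → ∃ η : ℝ, 0 < η ∧ ∀ ε : ℝ, 0 < ε →
    (∀ ν : ℝ, 0 < ν → ∃ δ : ℝ, 0 < δ ∧ ∀ U : ℕ, ∃ x₀ : ℕ, ∀ x : ℕ, x₀ ≤ x →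
      ∃ P : Finset ℕ, Few x ((x : ℝ) ^ ν) P ∧
      ∀ q : ℕ, 0 < q → (q : ℝ) ≤ (x : ℝ) ^ κ → (∀ f ∈ P, ¬ f ∣ q) → ∀ l : ℤ, Int.gcd l q = 1 →
      ∀ Z : ℕ, 1 ≤ Z →
      (((right x θ ε η q l).filter (fun t => t ≤ Z ∧
        ¬ Regular x ((x : ℝ) ^ (1 - δ)) (x / Real.log x ^ U) (q * t) l)).card : ℝ) ≤ Z * (x : ℝ) ^ (-δ)) ∧
    (∀ U B : ℕ, ∃ C : ℕ, ∀ A : ℕ, ∃ x₀ : ℕ, ∀ x : ℕ, x₀ ≤ x →
      ∃ P : Finset ℕ, Few x (Real.log x ^ C) P ∧ (∀ f ∈ P, Real.log x ^ A < f) ∧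
      ∀ q : ℕ, 0 < q → (q : ℝ) ≤ (x : ℝ) ^ κ → (q.divisors.card : ℝ) ≤ Real.log x ^ B →
      (∀ f ∈ P, ¬ f ∣ q) → ∀ l : ℤ, Int.gcd l q = 1 → ∀ Z : ℕ, 1 ≤ Z →
      (((right x θ ε η q l).filter (fun t => t ≤ Z ∧
        ¬ Regular x (x / Real.log x ^ U) (x / Real.log x ^ U) (q * t) l)).card : ℝ) ≤ Z / Real.log x ^ U) := by
  intro θ κ hθ hκ
  have hθ' : max θ (1 / 2) < 43 / 84 := max_lt hθ (by norm_num)
  have hκ' : max κ 0 < 1 / 3 := max_lt hκ (by norm_num)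
  obtain ⟨η1, hη1, hp⟩ := Pool.Agent.U365.LM.few_psi_power (max θ (1 / 2)) (max κ 0) (le_max_right _ _) hθ'
    (le_max_right _ _) hκ'
  obtain ⟨η2, hη2, hl⟩ := Pool.Agent.U365.LM.few_psi_log (max θ (1 / 2)) (max κ 0) (le_max_right _ _) hθ'
    (le_max_right _ _) hκ'
  have hmono : ∀ {x q : ℕ} {ε η η' : ℝ} {l : ℤ}, 1 ≤ x → η ≤ η' → ∀ t ∈ right x θ ε η q l,
      Pool.Agent.R503.N.Mo x q l (max θ (1 / 2)) ε η' t := by
    intro x q ε η η' l hx h t ht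
    have hx1 : (1 : ℝ) ≤ x := by exact_mod_cast hx
    have h1 := mo t (right_mono hx (le_max_left θ (1 / 2)) ht)
    exact ⟨h1.1, h1.2.1, fun p hp hpt => ⟨(h1.2.2.1 p hp hpt).1, (h1.2.2.1 p hp hpt).2.trans
      (Real.rpow_le_rpow_of_exponent_le hx1 h)⟩, h1.2.2.2⟩
  have hκx : ∀ {x q : ℕ}, 1 ≤ x → (q : ℝ) ≤ (x : ℝ) ^ κ → (q : ℝ) ≤ (x : ℝ) ^ (max κ 0) := by
    intro x q hx h
    have hx1 : (1 : ℝ) ≤ x := by exact_mod_cast hx
    exact h.trans (Real.rpow_le_rpow_of_exponent_le hx1 (le_max_left _ _))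
  refine ⟨min η1 η2, lt_min hη1 hη2, fun ε hε => ⟨fun ν hν => ?_, fun U B => ?_⟩⟩
  · obtain ⟨δ, hδ, hev⟩ := hp ε hε ν hν
    refine ⟨δ, hδ, fun U => ?_⟩
    obtain ⟨x₀, hx₀⟩ := Filter.eventually_atTop.1 (hev U)
    refine ⟨max x₀ 1, fun x hx => ?_⟩
    have hx1 : 1 ≤ x := (le_max_right _ _).trans hx
    obtain ⟨P, hP2, hPc, h⟩ := hx₀ x ((le_max_left _ _).trans hx)
    refine ⟨P, ⟨hP2, hPc⟩, fun q hq hqκ hqP l hl Z hZ => ?_⟩
    have hM : ∀ t ∈ right x θ ε (min η1 η2) q l, Pool.Agent.R503.N.Mo x q l (max θ (1 / 2)) ε η1 t :=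
      hmono hx1 (min_le_left _ _)
    refine h q hq (hκx hx1 hqκ) hqP l (Int.isCoprime_iff_gcd_eq_one.2 hl) (right x θ ε (min η1 η2) q l) hM Z hZ _ ?_
    intro t ht
    rw [mem_filter, reg_iff] at ht
    exact ht
  · obtain ⟨C, hC⟩ := hl ε hε U B
    refine ⟨C, fun A => ?_⟩
    obtain ⟨x₀, hx₀⟩ := Filter.eventually_atTop.1 (hC A)
    refine ⟨max x₀ 1, fun x hx => ?_⟩
    have hx1 : 1 ≤ x := (le_max_right _ _).trans hx
    obtain ⟨P, hP2, hPc, h⟩ := hx₀ x ((le_max_left _ _).trans hx)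
    refine ⟨P, ⟨fun f hf => (hP2 f hf).1, hPc⟩, fun f hf => (hP2 f hf).2, fun q hq hqκ hqB hqP l hl Z hZ => ?_⟩
    have hM : ∀ t ∈ right x θ ε (min η1 η2) q l, Pool.Agent.R503.N.Mo x q l (max θ (1 / 2)) ε η2 t :=
      hmono hx1 (min_le_right _ _)
    refine h q hq (hκx hx1 hqκ) hqB hqP l (Int.isCoprime_iff_gcd_eq_one.2 hl) (right x θ ε (min η1 η2) q l) hM Z hZ _ ?_
    intro t ht
    rw [mem_filter, reg_iff] at ht
    exact ht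

end Pool.Agent.Results.MP_848d44_nt.MultiplesOfIndividualModuli
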