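import Pool.Agent.U710.LE.S

/-!
# Primes in progressions to all moduli `≤ N ^ (1 - ε)`, on average over residues near the values of functions which grow
faster than any power

Absolute values over all moduli, weights given by powers of the divisor function, arbitrary heights inside; the residue is
averaged, with arbitrary coefficients, over integers near the values `⌊exp (α (log n) ^ γ + β)⌋`.

Method (`Pool.Agent.U710.LE`): exponential sums over these integer parts, with the mean value theorem of Vinogradov for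
a degree which tends to infinity (of the order of `log N / log n`). The passage from such exponential sums to averages of
primes in residue classes is from the starting files (`Pool.Agent.N625.DY`, `Pool.Agent.TH872.GQ`, `Pool.Agent.W93`).

From Mathlib: `ArithmeticFunction.vonMangoldt`: the function `Λ`; `Nat.totient`: Euler's function; `Nat.divisors`.
-/

set_option autoImplicit false

namespace Pool.Agent.Results.MP_848d44_nt.SubexponentialResidues

open Finset Filter

/-- The sequence: `S α β γ n = ⌊exp (α (log n) ^ γ + β)⌋`. -/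
noncomputable def S (α β γ : ℝ) (n : ℕ) : ℕ := ⌊Real.exp (α * Real.log n ^ γ + β)⌋₊

/-- `ψ(x; q, a)`: the sum of `Λ(n)` over the `n ≤ x` with `n ≡ a (mod q)`. -/
noncomputable def psi (x q a : ℕ) : ℝ :=
  ∑ n ∈ (Icc 1 x).filter (fun n => n ≡ a [MOD q]), ArithmeticFunction.vonMangoldt n

/-- The sum of `w(n) (ψ(x; q, a(n)) - x / φ(q))` over the `n` in `(y - h, y]` for which `a(n)` is coprime to `q`. -/
noncomputable def total (y h : ℕ) (a : ℕ → ℕ) (w : ℕ → ℝ) (x q : ℕ) : ℝ :=
  ∑ n ∈ (Ioc (y - h) y).filter (fun n => (a n).Coprime q), w n * (psi x q (a n) - (x : ℝ) / Nat.totient q)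

/-- Let `α > 0`, `β`, `1 < γ < 3/2`, and let `S(n) = ⌊exp (α (log n) ^ γ + β)⌋`, a sequence which grows faster than any
power of `n` (it has only `X ^ o(1)` members up to `X`). Let `κ ≠ 0`, `A`, `B`, `T`, `W`, `U` be integers, and let `ε > 0`.

Let `y` be large, let `N = S(y)`, let `y / (log y) ^ A ≤ h ≤ y / log y`, let `c` be an arbitrary integer with `|c| ≤ B N`, let
`w(n)` be arbitrary real coefficients with `|w(n)| ≤ (log y) ^ T`, and for all `n` in `(y - h, y]` with `w(n) ≠ 0` let `a(n)` be an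
arbitrary positive integer at a distance of at most `(log y) ^ W` from `c + κ S(n)`. For every modulus `q` let `x(q) ≤ B N` be an
arbitrary height. Then the sum over ALL moduli `q ≤ N ^ (1 - ε)` of `τ(q) ^ T` times the ABSOLUTE VALUE of the sum of
`w(n) (ψ(x(q); q, a(n)) - x(q) / φ(q))`, over the `n` in `(y - h, y]` for which `a(n)` is coprime to `q`, is at most
`h N / (log y) ^ U`. -/
theorem result (α β γ : ℝ) (hα : 0 < α) (hγ1 : 1 < γ) (hγ2 : γ < 3 / 2) (κ : ℤ) (hκ : κ ≠ 0) (A B T W U : ℕ) (ε : ℝ)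
    (hε : 0 < ε) :
    ∀ᶠ y : ℕ in atTop, ∀ h : ℕ, (y : ℝ) / Real.log y ^ A ≤ h → (h : ℝ) ≤ y / Real.log y →
      ∀ c : ℤ, |c| ≤ B * (S α β γ y : ℤ) → ∀ (w : ℕ → ℝ) (a : ℕ → ℕ), (∀ n, |w n| ≤ Real.log y ^ T) →
      (∀ n ∈ Ioc (y - h) y, w n ≠ 0 → 0 < a n ∧ |(a n : ℝ) - (c + κ * (S α β γ n : ℕ))| ≤ Real.log y ^ W) →
      ∀ x : ℕ → ℕ, (∀ q, x q ≤ B * S α β γ y) → ∀ Q : ℕ, (Q : ℝ) ≤ (S α β γ y : ℝ) ^ (1 - ε) →
      ∑ q ∈ Icc 1 Q, (q.divisors.card : ℝ) ^ T * |total y h a w (x q) q| ≤ h * ((S α β γ y : ℝ) / Real.log y ^ U) :=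
  Pool.Agent.U710.LE.near_avg α β γ hα hγ1 hγ2 κ hκ A B T W U ε hε

end Pool.Agent.Results.MP_848d44_nt.SubexponentialResidues
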